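import Mathlib
import Pool.Agent.Lib.MP_2194ec_nt.FN.All

set_option autoImplicit false

/-!
# The dynamical Lehmer conjecture in full for congruence classes of morphisms of `P^N`, `N ≥ 2`

For every `N ≥ 2` and every prime power `q = p ^ s` there are `M ≥ 1` and forms `A_0, ..., A_N`
over `ℤ` of degree `q` such that, over every number field `K`, every `(N+1)`-tuple `F` of forms of
degree `q` over `𝓞 K` with `F ≡ A mod M` is a morphism of `P^N` which satisfies the dynamical
Lehmer conjecture: there is `c > 0` with `h_F(x) ≥ c / [L : K]` for all finite extensions `L / K`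
and all wandering points `x` of `P^N(L)`.
-/

namespace Pool.Agent.Results.MP_2194ec_nt.EveryDimension

theorem result :
    ∀ N p s : ℕ, 2 ≤ N → p.Prime → 1 ≤ s →
      ∃ (M : ℕ) (A : Fin (N + 1) → MvPolynomial (Fin (N + 1)) ℤ), 0 < M ∧
        (∀ i, (A i).IsHomogeneous (p ^ s)) ∧
        ∀ (K : Type) [Field K] [NumberField K]
          (F : Fin (N + 1) → MvPolynomial (Fin (N + 1)) (NumberField.RingOfIntegers K)),
          (∀ i, (F i).IsHomogeneous (p ^ s)) →
          (∀ i t, (M : NumberField.RingOfIntegers K) ∣
            MvPolynomial.coeff t (F i) -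
              ((MvPolynomial.coeff t (A i) : ℤ) : NumberField.RingOfIntegers K)) →
          (∀ z : Fin (N + 1) → AlgebraicClosure K,
            (∀ i, MvPolynomial.aeval z (MvPolynomial.map
              (algebraMap (NumberField.RingOfIntegers K) K) (F i)) = 0) → z = 0) ∧
          ∃ c : ℝ, 0 < c ∧
            ∀ (L : Type) [Field L] [NumberField L] [Algebra K L],
              ∀ x : Fin (N + 1) → L, x ≠ 0 →
              (¬ ∃ m n : ℕ, m ≠ n ∧ ∃ a : L, a ≠ 0 ∧
                (fun y : Fin (N + 1) → L => fun i => MvPolynomial.aeval y (MvPolynomial.map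
                  (algebraMap (NumberField.RingOfIntegers K) K) (F i)))^[n] x =
                a • (fun y : Fin (N + 1) → L => fun i => MvPolynomial.aeval y (MvPolynomial.map
                  (algebraMap (NumberField.RingOfIntegers K) K) (F i)))^[m] x) →
              ∃ h : ℝ,
                Filter.Tendsto (fun n : ℕ =>
                  ((1 : ℝ) / (Module.finrank ℚ L : ℝ)) *
                    ((∑ w : NumberField.InfinitePlace L,
                        (NumberField.InfinitePlace.mult w : ℝ) *
                          Real.log (⨆ j, w (((fun y : Fin (N + 1) → L => fun i =>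
                            MvPolynomial.aeval y (MvPolynomial.map
                              (algebraMap (NumberField.RingOfIntegers K) K) (F i)))^[n] x) j))) +
                     ∑ᶠ u : NumberField.FinitePlace L,
                        Real.log (⨆ j, u (((fun y : Fin (N + 1) → L => fun i =>
                          MvPolynomial.aeval y (MvPolynomial.map
                            (algebraMap (NumberField.RingOfIntegers K) K) (F i)))^[n] x) j)))
                    / ((p : ℝ) ^ s) ^ n) Filter.atTop (nhds h) ∧
                c / (Module.finrank K L : ℝ) ≤ h := by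
  intro N p s hN hp hs
  obtain ⟨M, A, hM, hA, H⟩ := Pool.DynLehmer.FN.fam_lehmer Pool.DynLehmer.FN.noperStatement
    Pool.DynLehmer.FN.cls (N + 1) p s (by omega) hp hs
  refine ⟨M, A, hM, hA, fun K _ _ F hF hcong => ?_⟩
  obtain ⟨hz, c, hc, H⟩ := H K F hF hcong
  refine ⟨hz, c, hc, fun L _ _ _ x hx hw => ?_⟩
  obtain ⟨h, hlim, hle⟩ := H L x hx hw
  refine ⟨h, hlim.congr fun n => ?_, hle⟩
  have hne := Pool.DynLehmer.gAct_iter_ne _ (fun i => (hF i).map _) hz n x hx
  rw [Pool.DynLehmer.logHeight_eq_sum hne]
  rw [one_div, inv_mul_eq_div]
  push_cast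
  rfl

end Pool.Agent.Results.MP_2194ec_nt.EveryDimension
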