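import Mathlib
import Pool.Agent.Lib.MP_2194ec_nt.LW.AllMulo2
import Pool.Agent.Lib.MP_2194ec_nt.LW.PasFld
import Pool.Agent.Lib.MP_2194ec_nt.LW.Smy

set_option autoImplicit false

/-!
# Lehmer's conjecture outside reciprocal numbers with primitive almost simple Galois groups

For every `A ≥ 1` and every number field `K` there is `c > 0` such that the absolute logarithmic
Weil height of `a` is at least `c / [K(a) : K]` for every algebraic number `a` which is neither
zero nor a root of unity, contained in a finite Galois extension `L` of `K`, unless the following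
three conditions hold.  Let `K_a` be the subfield of `K(a)` fixed by the automorphisms which
multiply `a` by a root of unity, and let `e = [K_a : K]`, the number of the conjugates of `a`
modulo roots of unity.

* `1 / a` is a conjugate of `a` over `ℚ`.
* There are fields `K ≤ E < F ≤ K_a` with no field strictly between `E` and `F`, with
  `[K_a : F] ≤ 2` and `[E : K] ^ A < e`, such that the Galois group of the Galois closure of `F`
  over `E` has a simple normal subgroup `T` with trivial centralizer (so this group is a primitive
  almost simple group), `T` has more than `e ^ A` elements, and if `T` is an alternating group, its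
  degree `n` satisfies `n ^ A > e ^ (A - 1)`.
* Any `k ≤ A` multiplicatively independent conjugates of `a` generate modulo roots of unity a field
  of degree more than `e ^ (k - 1 / A)` over `K`.

In particular the bound holds if the Galois group is solvable, or if all its composition factors
are abelian or have order at most `e ^ A`.

This is the bound of the dynamical Lehmer conjecture for the maps `z ↦ z ^ d`, `d ≥ 2`, whose
wandering points outside of `0` and infinity are the numbers which are not roots of unity, and
whose canonical height is the Weil height.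
-/

namespace Pool.Agent.Results.MP_2194ec_nt.LehmerClassical

/-- The absolute logarithmic Weil height of an element `a` of a number field `L`. -/
noncomputable def weilHeight {L : Type} [Field L] [NumberField L] (a : L) : ℝ :=
  (∑ w : NumberField.InfinitePlace L, (NumberField.InfinitePlace.mult w : ℝ) *
      Real.log (max (w a) 1) +
    ∑ᶠ u : NumberField.FinitePlace L, Real.log (max (u a) 1)) / (Module.finrank ℚ L : ℝ)

/-- `K_a`: the field fixed by all automorphisms `g` of `L` over `K` such that `g a / a` is a root
of unity.  Its degree over `K` is the number of the conjugates of `a ≠ 0` modulo roots of unity. -/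
noncomputable def classField (K : Type) [Field K] {L : Type} [Field L] [Algebra K L] (a : L) :
    IntermediateField K L :=
  IntermediateField.fixedField
    (Subgroup.closure {g : L ≃ₐ[K] L | ∃ r : ℕ, 1 ≤ r ∧ (g a) ^ r = a ^ r})

/-- The numbers `b i` are multiplicatively independent. -/
def MultIndep {L : Type} [Field L] {k : ℕ} (b : Fin k → L) : Prop :=
  ∀ l : Fin k → ℤ, ∏ i, b i ^ l i = 1 → l = 0

/-- The Galois group of the Galois closure of `F` over `E`, which is `Gal(L / E)` modulo the
normal core of `Gal(L / F)`, has a simple normal subgroup `T` with trivial centralizer and more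
than `e ^ A` elements; if `T` is isomorphic to the alternating group of degree `n`, then
`n ^ A > e ^ (A - 1)`. -/
def AlmostSimple {K L : Type} [Field K] [Field L] [Algebra K L] (E F : IntermediateField K L)
    (A e : ℕ) : Prop :=
  ∃ T : Subgroup (E.fixingSubgroup ⧸ (F.fixingSubgroup.subgroupOf E.fixingSubgroup).normalCore),
    T.Normal ∧ IsSimpleGroup T ∧ Subgroup.centralizer
      (T : Set (E.fixingSubgroup ⧸ (F.fixingSubgroup.subgroupOf E.fixingSubgroup).normalCore)) = ⊥ ∧
    e ^ A < Nat.card T ∧ ∀ n : ℕ, Nonempty (T ≃* alternatingGroup (Fin n)) → e ^ (A - 1) < n ^ A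

theorem sup_pair {L F : Type} [Field L] [FunLike F L ℝ] [MonoidWithZeroHomClass F L ℝ] (v : F)
    (a : L) : (⨆ i : Fin 2, v ((![a, 1] : Fin 2 → L) i)) = max (v a) 1 := by
  apply le_antisymm
  · apply ciSup_le
    intro i
    fin_cases i
    · exact le_max_left _ _
    · simp
  · apply max_le
    · exact Finite.le_ciSup (fun i : Fin 2 => v ((![a, 1] : Fin 2 → L) i)) 0
    · have h := Finite.le_ciSup (fun i : Fin 2 => v ((![a, 1] : Fin 2 → L) i)) 1
      simpa using h

theorem weilHeight_eq {L : Type} [Field L] [NumberField L] (a : L) :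
    Height.logHeight (![a, 1] : Fin 2 → L) / (Module.finrank ℚ L : ℝ) = weilHeight a := by
  have h0 : (![a, 1] : Fin 2 → L) ≠ 0 := fun h => one_ne_zero (congrFun h 1 : (1 : L) = 0)
  rw [Pool.DynLehmer.logHeight_eq_sum h0]
  unfold weilHeight
  simp only [sup_pair]

theorem classField_eq {K L : Type} [Field K] [Field L] [Algebra K L] {a : L}
    {S : Subgroup (L ≃ₐ[K] L)} (hS : ∀ g, g ∈ S ↔ ∃ r : ℕ, 1 ≤ r ∧ (g a) ^ r = a ^ r) :
    classField K a = IntermediateField.fixedField S := by
  have h1 : {g : L ≃ₐ[K] L | ∃ r : ℕ, 1 ≤ r ∧ (g a) ^ r = a ^ r} = (S : Set (L ≃ₐ[K] L)) := by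
    ext g
    exact (hS g).symm
  unfold classField
  rw [h1, Subgroup.closure_eq]

theorem result :
    ∀ A : ℕ, 1 ≤ A → ∀ (K : Type) [Field K] [NumberField K], ∃ c : ℝ, 0 < c ∧
      ∀ (L : Type) [Field L] [NumberField L] [Algebra K L] [IsGalois K L]
        (a : L), a ≠ 0 → (∀ n : ℕ, 1 ≤ n → a ^ n ≠ 1) →
        c / (Module.finrank K (IntermediateField.adjoin K {a}) : ℝ) ≤ weilHeight a ∨
        Polynomial.aeval a⁻¹ (minpoly ℚ a) = 0 ∧
        (∃ E F : IntermediateField K L, E < F ∧ F ≤ classField K a ∧
          (∀ M : IntermediateField K L, E ≤ M → M ≤ F → M = E ∨ M = F) ∧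
          IntermediateField.relfinrank F (classField K a) ≤ 2 ∧
          Module.finrank K E ^ A < Module.finrank K (classField K a) ∧
          AlmostSimple E F A (Module.finrank K (classField K a))) ∧
        ∀ (k : ℕ) (s : Fin k → (L ≃ₐ[K] L)), 2 ≤ k → k ≤ A → MultIndep (fun i => s i a) →
          Module.finrank K (classField K a) ^ (k * A - 1) <
            Module.finrank K (⨆ i, (classField K a).map (s i : L →ₐ[K] L) :
              IntermediateField K L) ^ A := by
  intro A hA K _ _
  obtain ⟨c₁, hc₁, h1⟩ := Pool.DynLehmer.LW.mulo2 A hA K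
  obtain ⟨c₂, hc₂, h2⟩ := Pool.DynLehmer.LW.smyth_rel K
  refine ⟨min c₁ c₂, lt_min hc₁ hc₂, ?_⟩
  intro L _ _ _ _ a ha hn
  have hfd : FiniteDimensional K L := Module.Finite.of_restrictScalars_finite ℚ K L
  have hpos : (0 : ℝ) ≤ (Module.finrank K (IntermediateField.adjoin K {a}) : ℝ) :=
    Nat.cast_nonneg _
  by_cases hrec : Polynomial.aeval a⁻¹ (minpoly ℚ a) = 0
  swap
  · left
    rw [← weilHeight_eq]
    exact (div_le_div_of_nonneg_right (min_le_right _ _) hpos).trans (h2 L a ha hrec)
  obtain ⟨S, hS, h⟩ := h1 L a ha hn
  have hKS : (classField K a).fixingSubgroup = S := by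
    rw [classField_eq hS, IntermediateField.fixingSubgroup_fixedField]
  rcases h with h | ⟨hind, hpas⟩
  · left
    rw [← weilHeight_eq]
    exact (div_le_div_of_nonneg_right (min_le_left _ _) hpos).trans h
  right
  refine ⟨hrec, Pool.DynLehmer.LW.PasFld.pas_fields hpas hKS, ?_⟩
  intro k s hk2 hkA hs
  rw [Pool.DynLehmer.LW.PasFld.finrank_iSup, hKS, classField_eq hS,
    Pool.DynLehmer.LW.PasFld.finrank_fixed]
  exact hind k s hk2 hkA hs

end Pool.Agent.Results.MP_2194ec_nt.LehmerClassical
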