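import Mathlib
import Pool.Agent.Lib.MP_2194ec_nt.LE.AllLe
import Pool.Agent.Lib.MP_2194ec_nt.LE.Latw
import Pool.Agent.Lib.MP_2194ec_nt.LE.Latc
import Pool.Agent.Lib.MP_2194ec_nt.LE.Genc
import Pool.Agent.Lib.MP_2194ec_nt.LE.Nearw

set_option autoImplicit false

/-!
# Lehmer's conjecture for elliptic curves outside primitive almost simple Galois groups

Let `E` be an elliptic curve over a number field `K`, given by any Weierstrass equation `W`, which
has good supersingular reduction at some finite place over some prime, which can also be `2` or `3`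
(by a theorem of Elkies, which is not used here, every elliptic curve over `ℚ` has such places; the
theorem can be used over a finite extension of `K`, where curves with potentially good supersingular
reduction at some place have good supersingular reduction).

For every `A ≥ 1` there is `c > 0` such that for every point `P` of infinite order over a finite
Galois extension `L` of `K`, with `D = [K(x(P)) : K]`, the canonical height of `P` is at least
`c / D * exp (- √(log D) / c)`, and at least `c / D` unless the torsion part of `P` is exceptional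
(see below) or the following two conditions hold. Let `K_P` be the field fixed by the automorphisms
`g` of `L` over `K` for which `g P - P` has finite order, and let `e = [K_P : K]`, the number of the
conjugates of `P` modulo torsion.

* There are fields `K ≤ M < F ≤ K_P` with no field strictly between `M` and `F`, with
  `[K_P : F] ≤ 81` and `[M : K] ^ A < e`, such that the Galois group of the Galois closure of `F`
  over `M` has a simple normal subgroup `T` with trivial centralizer (so this group is a primitive
  almost simple group), `T` has more than `e ^ A` elements, and if `T` is an alternating group, its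
  degree `n` satisfies `n ^ A > e ^ (A - 1)`.
* Among any `3 ≤ r ≤ A` linearly independent conjugates `s P` of `P` there are `k ≥ r / 2` whose
  fields `s K_P` generate a field of degree more than `e ^ (k - 1 / A)` over `K`.

In particular the bound `c / D` holds if the Galois group is solvable, or if all its composition
factors are abelian or have order at most `e ^ A`.

The torsion part of `P` is not exceptional if some `n P + T`, `n ≥ 1`, `T` of finite order, has
degree at most `A e ^ A`, and `n ^ 2` times this degree is at most `A` times the degree of `P`. This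
holds for all `P`, with some `A` which depends only on the curve, if the image of the Galois group of
`K` in the automorphisms of the torsion is open (by a theorem of Serre, which is not used here, this
is so for all elliptic curves without complex multiplication). If the curve has complex
multiplication over `K`, then no torsion part is exceptional if the image of the Galois group of `K`
is open in the group of the automorphisms of the torsion which commute with the complex
multiplication (by the theory of complex multiplication, which is not used here, this is so for all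
curves with complex multiplication over `K`; by a theorem of Deuring, which is not used here, they
have good supersingular reduction at some place over a finite extension of `K`).

For `m ≥ 2` let `f` be the map of the projective line with `f (x(P)) = x(m P)`. The height of the
theorem is the canonical height of the point `x(P)` for `f`, and `K(x(P))` is the field of
definition of this point, so the theorem is the dynamical Lehmer conjecture for `f` and these
points.
-/

namespace Pool.Agent.Results.MP_2194ec_nt.LehmerElliptic

open scoped Classical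

/-- The group of the points of the curve `W` over an extension `L` of `K`. -/
abbrev Points {K : Type} [Field K] (W : WeierstrassCurve K) (L : Type) [Field L] [Algebra K L] :
    Type := WeierstrassCurve.Affine.Point (W.baseChange L)

/-- The conjugate of the point `P` by `σ`. -/
noncomputable def conj {K : Type} [Field K] {W : WeierstrassCurve K} {L : Type} [Field L]
    [Algebra K L] (σ : L ≃ₐ[K] L) (P : Points W L) : Points W L :=
  WeierstrassCurve.Affine.Point.map (σ : L →ₐ[K] L) P

/-- `P` and `Q` differ by a point of finite order. -/
def SameModTorsion {K : Type} [Field K] {W : WeierstrassCurve K} {L : Type} [Field L] [Algebra K L]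
    (P Q : Points W L) : Prop := ∃ r : ℕ, 1 ≤ r ∧ r • P = r • Q

/-- `K_P`: the field fixed by all automorphisms `g` of `L` over `K` for which `g P - P` is a point
of finite order. Its degree over `K` is the number of the conjugates of `P` modulo torsion. -/
noncomputable def classField {K : Type} [Field K] {W : WeierstrassCurve K} {L : Type} [Field L]
    [Algebra K L] (P : Points W L) : IntermediateField K L :=
  IntermediateField.fixedField (Subgroup.closure {g : L ≃ₐ[K] L | SameModTorsion (conj g P) P})

/-- The points `Q i` are linearly independent over `ℤ`. -/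
def Independent {K : Type} [Field K] {W : WeierstrassCurve K} {L : Type} [Field L] [Algebra K L]
    {r : ℕ} (Q : Fin r → Points W L) : Prop := ∀ l : Fin r → ℤ, ∑ i, l i • Q i = 0 → l = 0

/-- The Galois group of the Galois closure of `F` over `M`, which is `Gal(L / M)` modulo the
normal core of `Gal(L / F)`, has a simple normal subgroup `T` with trivial centralizer and more
than `e ^ A` elements; if `T` is isomorphic to the alternating group of degree `n`, then
`n ^ A > e ^ (A - 1)`. -/
def AlmostSimple {K L : Type} [Field K] [Field L] [Algebra K L] (M F : IntermediateField K L)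
    (A e : ℕ) : Prop :=
  ∃ T : Subgroup (M.fixingSubgroup ⧸ (F.fixingSubgroup.subgroupOf M.fixingSubgroup).normalCore),
    T.Normal ∧ IsSimpleGroup T ∧ Subgroup.centralizer
      (T : Set (M.fixingSubgroup ⧸ (F.fixingSubgroup.subgroupOf M.fixingSubgroup).normalCore)) = ⊥ ∧
    e ^ A < Nat.card T ∧ ∀ n : ℕ, Nonempty (T ≃* alternatingGroup (Fin n)) → e ^ (A - 1) < n ^ A

/-- The exceptional points: there are fields `K ≤ M < F ≤ K_P` with no field strictly between `M`
and `F`, with `[K_P : F] ≤ 81` and `[M : K] ^ A < e = [K_P : K]`, such that the Galois group of the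
Galois closure of `F` over `M` is almost simple; and among any `3 ≤ r ≤ A` linearly independent
conjugates `s i P` of `P` there are `k ≥ r / 2` whose fields `s i K_P` generate a field of degree
more than `e ^ (k - 1 / A)` over `K`. -/
def Exceptional {K : Type} [Field K] {W : WeierstrassCurve K} {L : Type} [Field L] [Algebra K L]
    (P : Points W L) (A : ℕ) : Prop :=
  (∃ M F : IntermediateField K L, M < F ∧ F ≤ classField P ∧
    (∀ I : IntermediateField K L, M ≤ I → I ≤ F → I = M ∨ I = F) ∧
    IntermediateField.relfinrank F (classField P) ≤ 81 ∧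
    Module.finrank K M ^ A < Module.finrank K (classField P) ∧
    AlmostSimple M F A (Module.finrank K (classField P))) ∧
  ∀ (r : ℕ) (s : Fin r → (L ≃ₐ[K] L)), 3 ≤ r → r ≤ A → Independent (fun i => conj (s i) P) →
    ∃ (k : ℕ) (ι : Fin k → Fin r), Function.Injective ι ∧ r ≤ 2 * k ∧
      Module.finrank K (classField P) ^ (k * A - 1) <
        Module.finrank K (⨆ i, (classField P).map (s (ι i) : L →ₐ[K] L) :
          IntermediateField K L) ^ A

/-- The first coordinate (it is `0` for the point at infinity). -/
def xCoord {K : Type} [Field K] {W : WeierstrassCurve K} {L : Type} [Field L] [Algebra K L] :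
    Points W L → L
  | .zero => 0
  | .some x _ _ => x

/-- The degree `[K(x(P)) : K]`. -/
noncomputable def degree {K : Type} [Field K] {W : WeierstrassCurve K} {L : Type} [Field L]
    [Algebra K L] (P : Points W L) : ℕ :=
  Module.finrank K (IntermediateField.adjoin K {xCoord P})

/-- The absolute logarithmic height of the first coordinate of a point. -/
noncomputable def height {K : Type} [Field K] {W : WeierstrassCurve K} {L : Type} [Field L]
    [NumberField L] [Algebra K L] (P : Points W L) : ℝ :=
  (∑ w : NumberField.InfinitePlace L, (NumberField.InfinitePlace.mult w : ℝ) *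
      Real.log (max (w (xCoord P)) 1) +
    ∑ᶠ u : NumberField.FinitePlace L, Real.log (max (u (xCoord P)) 1)) /
      (Module.finrank ℚ L : ℝ)

/-- Some multiple `n P + T` of `P`, up to a point `T` of finite order, has degree at most `A e ^ A`,
`e = [K_P : K]`, and `n ^ 2` times this degree is at most `A` times the degree of `P`. -/
def SmallMultiple {K : Type} [Field K] {W : WeierstrassCurve K} {L : Type} [Field L] [Algebra K L]
    (P : Points W L) (A : ℕ) : Prop :=
  ∃ (n : ℕ) (T : Points W L), 1 ≤ n ∧ (∃ m : ℕ, 1 ≤ m ∧ m • T = 0) ∧
    degree (n • P + T) ≤ A * Module.finrank K (classField P) ^ A ∧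
    n ^ 2 * degree (n • P + T) ≤ A * degree P

/-- The group of the points of order dividing `n` over an algebraic closure of `K`. -/
def torsion {K : Type} [Field K] (W : WeierstrassCurve K) (n : ℕ) :
    AddSubgroup (Points W (AlgebraicClosure K)) where
  carrier := {Q | n • Q = 0}
  zero_mem' := smul_zero n
  add_mem' := by
    intro x y hx hy
    show n • (x + y) = 0
    rw [smul_add, show n • x = 0 from hx, show n • y = 0 from hy, add_zero]
  neg_mem' := by
    intro x hx
    show n • (-x) = 0
    rw [smul_neg, show n • x = 0 from hx, neg_zero]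

/-- The automorphisms of the group of the points of order dividing `n`. -/
def TorsionAut {K : Type} [Field K] (W : WeierstrassCurve K) (n : ℕ) : Type :=
  torsion W n ≃+ torsion W n

/-- The automorphisms of the group of the points of order dividing `n` which are given by
automorphisms of the algebraic closure of `K`. -/
def GaloisImage {K : Type} [Field K] (W : WeierstrassCurve K) (n : ℕ) : Type :=
  {f : TorsionAut W n // ∃ σ : AlgebraicClosure K ≃ₐ[K] AlgebraicClosure K,
    ∀ Q : torsion W n, (f.toFun Q).1 = conj σ Q.1}

/-- The image of the Galois group of `K` in the automorphisms of the torsion is open: for all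
`n ≥ 1` the group of the points of order dividing `n` is isomorphic to `(ℤ / n) ^ 2`, and the number
of its automorphisms is at most `B` times the number of those given by automorphisms of the
algebraic closure of `K`. -/
def OpenImage {K : Type} [Field K] (W : WeierstrassCurve K) : Prop :=
  ∃ B : ℕ, ∀ n : ℕ, 1 ≤ n → Nonempty (torsion W n ≃+ ZMod n × ZMod n) ∧
    Nat.card (TorsionAut W n) ≤ B * Nat.card (GaloisImage W n)

/-- An endomorphism over `K` of the curve `W`: a family of endomorphisms of the groups of the points
over all extensions of `K`, compatible with the homomorphisms of the extensions over `K`, which is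
given on the first coordinates `(x : 1)`, or `(1 : 0)` for the point at infinity, by a pair of forms
of degree `deg` over `K`. -/
structure Endomorphism {K : Type} [Field K] (W : WeierstrassCurve K) where
  map : ∀ (L : Type) [Field L] [Algebra K L], Points W L →+ Points W L
  deg : ℕ
  form : Fin 2 → MvPolynomial (Fin 2) K
  homogeneous : ∀ i, (form i).IsHomogeneous deg
  natural : ∀ (L M : Type) [Field L] [Algebra K L] [Field M] [Algebra K M] (φ : L →ₐ[K] M)
    (P : Points W L), WeierstrassCurve.Affine.Point.map φ (map L P) =
      map M (WeierstrassCurve.Affine.Point.map φ P)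
  onX : ∀ (L : Type) [Field L] [Algebra K L] (P : Points W L), ∃ c : L, c ≠ 0 ∧
    (fun i => MvPolynomial.aeval P.xRep (form i)) = c • (map L P).xRep

/-- The endomorphism `J` satisfies `J ^ 2 = t J - m` with `t ^ 2 < 4 m`. -/
def IsImaginary {K : Type} [Field K] {W : WeierstrassCurve K} (J : Endomorphism W) (t m : ℤ) :
    Prop :=
  t ^ 2 < 4 * m ∧ ∀ (L : Type) [Field L] [Algebra K L] (P : Points W L),
    J.map L (J.map L P) = t • J.map L P - m • P

/-- The points `Q` and `J Q` are a basis over `ℤ / n` of the group of the points of order dividing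
`n` over the algebraic closure of `K`. -/
def IsBasis {K : Type} [Field K] {W : WeierstrassCurve K} (J : Endomorphism W) (n : ℕ)
    (Q : Points W (AlgebraicClosure K)) : Prop :=
  n • Q = 0 ∧ (∀ R : Points W (AlgebraicClosure K), n • R = 0 →
    ∃ x y : ℤ, R = x • Q + y • J.map (AlgebraicClosure K) Q) ∧
  ∀ x y : ℤ, x • Q + y • J.map (AlgebraicClosure K) Q = 0 → (n : ℤ) ∣ x ∧ (n : ℤ) ∣ y

/-- The automorphisms of the group of the points of order dividing `n` which commute with `J`. -/
def CommutingAut {K : Type} [Field K] {W : WeierstrassCurve K} (J : Endomorphism W) (n : ℕ) :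
    Type :=
  {f : TorsionAut W n // ∀ Q R : torsion W n, R.1 = J.map (AlgebraicClosure K) Q.1 →
    (f.toFun R).1 = J.map (AlgebraicClosure K) (f.toFun Q).1}

/-- The curve has complex multiplication by `J` over `K`, and the image of the Galois group of `K` in
the automorphisms of the torsion which commute with `J` is open: for all `n ≥ 1` the group of the
points of order dividing `n` has a basis `Q`, `J Q` over `ℤ / n`, and the number of its automorphisms
which commute with `J` is at most `B` times the number of those given by automorphisms of the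
algebraic closure of `K`. -/
def OpenImageCM {K : Type} [Field K] (W : WeierstrassCurve K) : Prop :=
  ∃ (J : Endomorphism W) (t m : ℤ), IsImaginary J t m ∧ ∃ B : ℕ, ∀ n : ℕ, 1 ≤ n →
    (∃ Q, IsBasis J n Q) ∧ Nat.card (CommutingAut J n) ≤ B * Nat.card (GaloisImage W n)

/-- The ring of the elements of `K` which are integral at `v`. -/
def Integral {K : Type} [Field K] [NumberField K] (v : NumberField.FinitePlace K) : Subring K where
  carrier := {x | v x ≤ 1}
  mul_mem' := by
    intro x y hx hy
    show v (x * y) ≤ 1
    rw [map_mul]
    exact mul_le_one₀ hx (apply_nonneg v y) hy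
  one_mem' := (map_one v).le
  add_mem' := fun hx hy => (NumberField.FinitePlace.add_le v _ _).trans (max_le hx hy)
  zero_mem' := by
    show v 0 ≤ 1
    rw [map_zero]
    exact zero_le_one
  neg_mem' := by
    intro x hx
    show v (-x) ≤ 1
    rwa [map_neg_eq_map]

/-- The Weierstrass equation `W` with coefficients integral at the place `v` over the prime `p` has
good supersingular reduction: its discriminant is a unit, and over a finite field of characteristic
`p` to which the ring of the elements integral at `v` is mapped it has no point of order `p`. -/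
structure Supersingular {K : Type} [Field K] [NumberField K] (p : ℕ)
    (v : NumberField.FinitePlace K) (W : WeierstrassCurve (Integral v)) : Prop where
  prime : p.Prime
  above : v (p : K) < 1
  disc : IsUnit W.Δ
  points : ∀ (k : Type) [Field k] [Finite k] (r : Integral v →+* k), CharP k p →
    ∀ P : WeierstrassCurve.Affine.Point (W.map r), p • P = 0 → P = 0

/-- The curve `W` over `K` has good supersingular reduction at some place: after a change of the
coordinates over `K` it has a Weierstrass equation with good supersingular reduction at some place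
over some prime. -/
def GoodSupersingular {K : Type} [Field K] [NumberField K] (W : WeierstrassCurve K) : Prop :=
  ∃ (p : ℕ) (v : NumberField.FinitePlace K) (W₀ : WeierstrassCurve (Integral v))
    (C : WeierstrassCurve.VariableChange K), Supersingular p v W₀ ∧
      C • W = W₀.map (Integral v).subtype

/-! ## The bridge to the library -/

section bridge
open Pool.DynLehmer Pool.DynLehmer.LE Pool.DynLehmer.LW Pool.DynLehmer.GS

theorem gss {K : Type} [Field K] [NumberField K] {W : WeierstrassCurve K}
    (h : GoodSupersingular W) : GSS W := by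
  obtain ⟨p, v, W₀, C, hS, hC⟩ := h
  exact ⟨p, v, W₀, C, hS.prime, ⟨hS.above, hS.disc, hS.points⟩, hC⟩

theorem disc_ne {K : Type} [Field K] [NumberField K] {W : WeierstrassCurve K}
    (h : GoodSupersingular W) : W.Δ ≠ 0 := by
  obtain ⟨p, v, W₀, C, hS, hC⟩ := h
  intro h0
  have h1 : (C • W).Δ ≠ 0 := by
    rw [hC, WeierstrassCurve.map_Δ]
    exact (hS.disc.map (Integral v).subtype).ne_zero
  apply h1
  rw [WeierstrassCurve.variableChange_Δ, h0, mul_zero]

theorem iSup_two (f : Fin 2 → ℝ) : ⨆ i, f i = max (f 0) (f 1) := by
  have hb : BddAbove (Set.range f) := Set.Finite.bddAbove (Set.finite_range f)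
  refine le_antisymm (ciSup_le fun i => ?_) (max_le (le_ciSup hb 0) (le_ciSup hb 1))
  fin_cases i
  · exact le_max_left _ _
  · exact le_max_right _ _

theorem iSup_xRep {K : Type} [Field K] {W : WeierstrassCurve K} {L : Type} [Field L] [Algebra K L]
    (P : Points W L) (w : L → ℝ) (h0 : w 0 = 0) (h1 : w 1 = 1) :
    ⨆ i, w (P.xRep i) = max (w (xCoord P)) 1 := by
  rw [iSup_two fun i => w (P.xRep i)]
  cases P with
  | zero =>
    show max (w 1) (w 0) = max (w 0) 1
    rw [h0, h1, max_comm]
  | some x y hxy =>
    show max (w x) (w 1) = max (w x) 1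
    rw [h1]

theorem height_eq {K : Type} [Field K] {W : WeierstrassCurve K} {L : Type} [Field L]
    [NumberField L] [Algebra K L] (P : Points W L) :
    Height.logHeight P.xRep / (Module.finrank ℚ L : ℝ) = height P := by
  rw [Pool.DynLehmer.logHeight_eq_sum (WeierstrassCurve.Affine.Point.xRep_ne_zero P)]
  unfold height
  congr 2
  · refine Finset.sum_congr rfl fun w _ => ?_
    rw [iSup_xRep P (fun z => w z) (map_zero w) (map_one w)]
  · refine finsum_congr fun w => ?_
    rw [iSup_xRep P (fun z => w z) (map_zero w) (map_one w)]

theorem dg_eq {K : Type} [Field K] {W : WeierstrassCurve K} {L : Type} [Field L] [Algebra K L]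
    (P : Points W L) : Pool.DynLehmer.GS.dg K P.xRep = degree P := by
  cases P with
  | zero =>
    unfold Pool.DynLehmer.GS.dg degree xCoord
    rw [← WeierstrassCurve.Affine.Point.zero_def, WeierstrassCurve.Affine.Point.xRep_zero]
    have h : (![(1 : L), 0] 0) / (![(1 : L), 0] 1) = 0 := by
      show (1 : L) / 0 = 0
      exact div_zero 1
    rw [h]
  | some x y hxy =>
    unfold Pool.DynLehmer.GS.dg degree xCoord
    rw [WeierstrassCurve.Affine.Point.xRep_some]
    have h : (![x, (1 : L)] 0) / (![x, (1 : L)] 1) = x := by
      show x / 1 = x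
      exact div_one x
    rw [h]

theorem class_eq {K : Type} [Field K] [CharZero K] {W : WeierstrassCurve K} {L : Type} [Field L]
    [Algebra K L] (P : Points W L) : classFieldE K (toS W L P) = classField P :=
  class_toS W P

theorem exc_eq {K : Type} [Field K] [CharZero K] {W : WeierstrassCurve K} {L : Type} [Field L]
    [Algebra K L] {P : Points W L} {A : ℕ} (h : ExceptionalE K (toS W L P) A) :
    Exceptional P A := by
  unfold ExceptionalE at h
  rw [class_eq] at h
  exact ⟨h.1, fun r s h3 hr hind => h.2 r s h3 hr (ind_toS W P s hind)⟩

/-- the endomorphism of the library -/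
noncomputable def toEndW {K : Type} [Field K] {W : WeierstrassCurve K} (J : Endomorphism W)
    {t m : ℤ} (h : IsImaginary J t m) : EndW W where
  J := J.map
  d := J.deg
  G := J.form
  t := t
  n := m
  nat := J.natural
  hom := J.homogeneous
  onX := J.onX
  sq := h.2

theorem openHW {K : Type} [Field K] {W : WeierstrassCurve K} (J : Endomorphism W) {t m : ℤ}
    (h : IsImaginary J t m) (hO : ∃ B : ℕ, ∀ n : ℕ, 1 ≤ n → (∃ Q, IsBasis J n Q) ∧
      Nat.card (CommutingAut J n) ≤ B * Nat.card (GaloisImage W n)) : OpenHW (toEndW J h) := by
  obtain ⟨B, hB⟩ := hO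
  refine ⟨B, fun n hn => ⟨(hB n hn).1, le_trans (le_of_eq ?_) (hB n hn).2⟩⟩
  refine Nat.card_congr (Equiv.subtypeEquivRight fun f => ?_)
  constructor
  · intro h1 Q R hR
    have h2 : R = Oj.JT (J.map (AlgebraicClosure K)) n Q := Subtype.ext hR
    rw [h2]
    exact congrArg Subtype.val (h1 Q)
  · intro h1 Q
    exact Subtype.ext (h1 Q _ rfl)

end bridge

open Pool.DynLehmer Pool.DynLehmer.LE Pool.DynLehmer.LW Pool.DynLehmer.GS in
/-- **The Lehmer conjecture for elliptic curves, outside primitive almost simple Galois groups**, and
a bound for all points of infinite order. -/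
theorem result :
    ∀ (K : Type) [Field K] [NumberField K] (W : WeierstrassCurve K), GoodSupersingular W →
      ∀ A : ℕ, 1 ≤ A → ∃ c : ℝ, 0 < c ∧
        ∀ (L : Type) [Field L] [NumberField L] [Algebra K L] [IsGalois K L] (P : Points W L),
          (∀ n : ℕ, 1 ≤ n → n • P ≠ 0) →
          ∃ h : ℝ,
            Filter.Tendsto (fun n : ℕ => height (n • P) / (n : ℝ) ^ 2) Filter.atTop (nhds h) ∧
            c / (degree P : ℝ) * Real.exp (-(Real.sqrt (Real.log (degree P : ℝ)) / c)) ≤ h ∧
            (OpenImage W ∨ OpenImageCM W ∨ SmallMultiple P A →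
              c / (degree P : ℝ) ≤ h ∨ Exceptional P A) := by
  intro K _ _ W hS A hA
  have hD : 4 * Du.sa W ^ 3 + 27 * Du.sb W ^ 2 ≠ 0 := by
    rw [disc_short, neg_ne_zero]
    exact div_ne_zero (disc_ne hS) (by norm_num)
  obtain ⟨p, hp2, H⟩ := gss_bound (fineuS gmst) freelust repe clse pash_all addsub W (gss hS)
  obtain ⟨F, hM, hlat⟩ := exists_lat addsub hD p
  have hE := H F hM hlat
  obtain ⟨c₁, hc₁, H₁⟩ := hE A A hA
  obtain ⟨c₂, hc₂, H₂⟩ : ∃ c : ℝ, 0 < c ∧ (OpenImage W →
      ∀ (L : Type) [Field L] [NumberField L] [Algebra K L] [IsGalois K L] (P : Points W L),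
        (∀ n : ℕ, 1 ≤ n → n • toS W L P ≠ 0) →
        ∃ h : ℝ, Pool.DynLehmer.LP.HasHt (p ^ 2) F (toS W L P).xRep h ∧
          (c / (Pool.DynLehmer.GS.dg K (toS W L P).xRep : ℝ) ≤ h ∨
            ExceptionalE K (toS W L P) A)) := by
    by_cases hO : OpenImage W
    · obtain ⟨M, hsm⟩ := small_open clse (openIm_W W hO)
      obtain ⟨c, hc, H'⟩ := hE A M hA
      exact ⟨c, hc, fun _ L _ _ _ _ P hP => H' L (toS W L P) hP (hsm L (toS W L P))⟩
    · exact ⟨1, one_pos, fun h => absurd h hO⟩
  obtain ⟨c₃, hc₃, H₃⟩ : ∃ c : ℝ, 0 < c ∧ (OpenImageCM W →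
      ∀ (L : Type) [Field L] [NumberField L] [Algebra K L] [IsGalois K L] (P : Points W L),
        (∀ n : ℕ, 1 ≤ n → n • toS W L P ≠ 0) →
        ∃ h : ℝ, Pool.DynLehmer.LP.HasHt (p ^ 2) F (toS W L P).xRep h ∧
          (c / (Pool.DynLehmer.GS.dg K (toS W L P).xRep : ℝ) ≤ h ∨
            ExceptionalE K (toS W L P) A)) := by
    by_cases hO : OpenImageCM W
    · obtain ⟨J, t, m, hJ, hO⟩ := hO
      obtain ⟨c, hc, H'⟩ := bound_openH clse hD (by nlinarith : 2 ≤ p ^ 2) hM hlat hE
        ((toEndW J hJ).toH (disc_ne hS)) hJ.1 (openH_W _ (disc_ne hS) (openHW J hJ hO)) A hA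
      exact ⟨c, hc, fun _ L _ _ _ _ P hP => H' L (toS W L P) hP⟩
    · exact ⟨1, one_pos, fun h => absurd h hO⟩
  obtain ⟨c₄, hc₄, Hn⟩ := Nw.near_gss addsub W (gss hS)
  set c₀ : ℝ := min (min c₁ (min c₂ c₃)) c₄ with hc₀
  have h01 : c₀ ≤ c₁ := (min_le_left _ _).trans (min_le_left _ _)
  have h02 : c₀ ≤ c₂ := (min_le_left _ _).trans ((min_le_right _ _).trans (min_le_left _ _))
  have h03 : c₀ ≤ c₃ := (min_le_left _ _).trans ((min_le_right _ _).trans (min_le_right _ _))
  have h04 : c₀ ≤ c₄ := min_le_right _ _
  have hc : 0 < c₀ := lt_min (lt_min hc₁ (lt_min hc₂ hc₃)) hc₄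
  refine ⟨c₀, hc, fun L _ _ _ _ P hP => ?_⟩
  have hP' : ∀ n : ℕ, 1 ≤ n → n • toS W L P ≠ 0 := by
    intro n hn h0
    rw [← map_nsmul] at h0
    exact hP n hn (toS_inj W L (h0.trans (map_zero _).symm))
  obtain ⟨h₀, ht₀, hle₀⟩ := Hn L P hP
  have ht₁ : Filter.Tendsto (fun n : ℕ => height (n • P) / (n : ℝ) ^ 2) Filter.atTop (nhds h₀) :=
    Filter.Tendsto.congr (fun n => by rw [height_eq]) ht₀
  rw [dg_eq] at hle₀
  refine ⟨h₀, ht₁, ?_, fun hor => ?_⟩
  · exact (Near.near_mono hc h04 (Nat.cast_nonneg _)).trans hle₀
  obtain ⟨h, hh, hle⟩ : ∃ h : ℝ, Pool.DynLehmer.LP.HasHt (p ^ 2) F (toS W L P).xRep h ∧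
      (c₀ / (Pool.DynLehmer.GS.dg K (toS W L P).xRep : ℝ) ≤ h ∨
        ExceptionalE K (toS W L P) A) := by
    rcases hor with hO | hO | ⟨n, T, hn, ⟨m, hm, hT⟩, h1, h2⟩
    · obtain ⟨h, hh, hle⟩ := H₂ hO L P hP'
      exact ⟨h, hh, hle.imp_left fun hle =>
        (div_le_div_of_nonneg_right h02 (Nat.cast_nonneg _)).trans hle⟩
    · obtain ⟨h, hh, hle⟩ := H₃ hO L P hP'
      exact ⟨h, hh, hle.imp_left fun hle =>
        (div_le_div_of_nonneg_right h03 (Nat.cast_nonneg _)).trans hle⟩
    · have hdeg : ∀ Q : Points W L, degree Q = Pool.DynLehmer.GS.dg K (toS W L Q).xRep :=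
        fun Q => by rw [dg_toS, dg_eq]
      rw [hdeg (n • P + T), map_add, map_nsmul] at h1 h2
      rw [← class_eq] at h1
      rw [hdeg P] at h2
      obtain ⟨h, hh, hle⟩ := H₁ L (toS W L P) hP'
        ⟨n, toS W L T, hn, ⟨m, hm, by rw [← map_nsmul, hT, map_zero]⟩, h1, h2⟩
      exact ⟨h, hh, hle.imp_left fun hle =>
        (div_le_div_of_nonneg_right h01 (Nat.cast_nonneg _)).trans hle⟩
  have ht : Filter.Tendsto (fun n : ℕ => height (n • P) / (n : ℝ) ^ 2) Filter.atTop (nhds h) := by
    refine Filter.Tendsto.congr (fun n => ?_) (tendsto_toS W P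
      (Pool.DynLehmer.LE.tendsto_sq hD hp2 rfl hM hlat (toS W L P) hh))
    rw [height_eq]
  obtain rfl : h₀ = h := tendsto_nhds_unique ht₁ ht
  rw [dg_toS, dg_eq] at hle
  exact hle.imp_right exc_eq

end Pool.Agent.Results.MP_2194ec_nt.LehmerElliptic
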