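import Mathlib
import Pool.Agent.Lib.MP_2194ec_nt.LW.AllVh
import Pool.Agent.Lib.MP_2194ec_nt.LW.ExplVH
import Pool.Agent.Lib.MP_2194ec_nt.UN.Orbifold
import Pool.Agent.Lib.MP_2194ec_nt.LW.PasFld
import Pool.Agent.Lib.MP_2194ec_nt.GAL.R.Mor

set_option autoImplicit false

/-!
# The dynamical Lehmer conjecture outside primitive almost simple Galois groups

Let `F = (F₀ : F₁)` be a map of the projective line of degree `q = p ^ s` over a number field `K`
and `v` a place of `K` above `p` at which `F` has purely inseparable good reduction: the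
coefficients of `F₀`, `F₁` are integral at `v`, those of the monomials other than `X₀ ^ q` and
`X₁ ^ q` have absolute value `< 1`, and the determinant of the coefficients of `X₀ ^ q` and
`X₁ ^ q` is a unit at `v`.  Assume that `F` is not parabolic: there is no function `ν` on the
projective line over the algebraic closure with values in `{1, 2, ..., ∞}`, equal to `1` outside a
finite set, with `ν(F(x)) = e(x) ν(x)` for all `x`, where `e(x)` is the local degree of `F` at `x`.
The parabolic maps are those which are conjugate to a power `z ^ q` or `z ^ (-q)`, to a Chebyshev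
polynomial or its negative, and the Lattès maps.  For example `F` may have a wandering critical
point, and all critical points may be preperiodic, as for `z ^ 2 - 1` and for `1 - 1 / z ^ 2`.

There is `R ≥ 1` with the following property; `R = 1` if any two wandering critical points have a
common iterate and either there is one or `F = z ^ q + c` (so `R = 1` for all `z ^ q + c`).
For every `A ≥ 1` there is `C > 0` such that for every wandering algebraic number `a`, in a finite
Galois extension `L` of `K`, of degree `d = [K(a) : K]`, the canonical height of `a` is at least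
`(C / d) exp(- √(log d) / C)`, and it is at least `C / d`, as in the dynamical Lehmer conjecture,
unless there is `n ≥ 0` such that `b = F^n(a)` and `D = [K(b) : K]` satisfy `D > A` and
`q ^ n D ^ (1 - 1 / A) ≤ d`, and such that all of the following hold.
* There are fields `K ≤ E < M ≤ K(b)`, with no field strictly between `E` and `M`, `[K(b) : M] ≤ R`
  and `[E : K] ^ A < D`, such that the Galois group of the Galois closure of `M` over `E` has a
  simple normal subgroup `T` with trivial centralizer (so this group is primitive and almost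
  simple), `T` has more than `D ^ A` elements, and if `T` is an alternating group, its degree `n`
  satisfies `n ^ A > D ^ (A - 1)`.
* There is a set `T` of at most `R` conjugates of `b` such that `k ≤ A` conjugates `σ₁ b, .., σ_k b`
  with `σ_i⁻¹ σ_j b` not in `T` for all `i ≠ j` generate a field of degree more than
  `D ^ (k - 1 / A)` over `K`; and `σ b ∈ T` implies `σ⁻¹ b ∈ T`.
* Every subgroup `H` of `Gal(L / K)` which is normalised by the stabilizer of `b` and for which the
  orbit `H b` has more than `R` elements has an orbit `H b` of more than `D ^ (1 - 1 / A)` elements,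
  on which it acts through a group which has a composition factor which is not abelian and has more
  than `D ^ A` elements.

So the bound holds if the Galois closure of `K(a)` over `K` has a solvable Galois group, or one all
of whose composition factors are abelian or of order at most `A`.
-/

namespace Pool.Agent.Results.MP_2194ec_nt.LehmerSolvable

/-- The map on vectors given by two forms `F 0`, `F 1`. -/
noncomputable def act {K : Type} [Field K] (F : Fin 2 → MvPolynomial (Fin 2) K) {L : Type}
    [Field L] [Algebra K L] (x : Fin 2 → L) : Fin 2 → L := fun i => MvPolynomial.aeval x (F i)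

/-- `x` and `y` are the same point of the projective line. -/
def Same {L : Type} [Field L] (x y : Fin 2 → L) : Prop := ∃ c : L, c ≠ 0 ∧ x = c • y

/-- The affine coordinate of the point `(x₀ : x₁)` (it is `0` for the point at infinity, as
`x₀ / 0 = 0`). -/
noncomputable def coord {L : Type} [Field L] (x : Fin 2 → L) : L := x 0 / x 1

/-- The point `x` is wandering for `F`. -/
def Wandering {K : Type} [Field K] (F : Fin 2 → MvPolynomial (Fin 2) K) {L : Type} [Field L]
    [Algebra K L] (x : Fin 2 → L) : Prop :=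
  ∀ m n : ℕ, Same ((act F)^[m] x) ((act F)^[n] x) → m = n

/-- The degree `[K(b) : K]`. -/
noncomputable def degree (K : Type) [Field K] {L : Type} [Field L] [Algebra K L] (b : L) : ℕ :=
  Module.finrank K (IntermediateField.adjoin K {b})

/-- The orbit of `b` under `H`. -/
def orbit {K : Type} [Field K] {L : Type} [Field L] [Algebra K L] (H : Subgroup (L ≃ₐ[K] L))
    (b : L) : Set L := {x | ∃ σ ∈ H, σ b = x}

/-- The group of the permutations of the set `X` induced by `H` has a subnormal series with factors
which are abelian or of order at most `m`; that is, all its composition factors are abelian or of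
order at most `m`. -/
def SmallFactors {K : Type} [Field K] {L : Type} [Field L] [Algebra K L]
    (H : Subgroup (L ≃ₐ[K] L)) (X : Set L) (m : ℕ) : Prop :=
  ∃ (l : ℕ) (G : ℕ → Subgroup (L ≃ₐ[K] L)), (∀ σ ∈ G 0, ∀ x ∈ X, σ x = x) ∧ G l = H ∧
    ∀ i < l, G i ≤ G (i + 1) ∧ (∀ σ ∈ G (i + 1), ∀ τ ∈ G i, σ * τ * σ⁻¹ ∈ G i) ∧
      ((∀ σ ∈ G (i + 1), ∀ τ ∈ G (i + 1), σ * τ * σ⁻¹ * τ⁻¹ ∈ G i) ∨
        (G i).relIndex (G (i + 1)) ≤ m)

/-- The Galois group of the Galois closure of `M` over `E`, which is `Gal(L / E)` modulo the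
normal core of `Gal(L / M)`, has a simple normal subgroup `T` with trivial centralizer and more
than `D ^ A` elements; if `T` is isomorphic to the alternating group of degree `n`, then
`n ^ A > D ^ (A - 1)`. -/
def AlmostSimple {K L : Type} [Field K] [Field L] [Algebra K L] (E M : IntermediateField K L)
    (A D : ℕ) : Prop :=
  ∃ T : Subgroup (E.fixingSubgroup ⧸ (M.fixingSubgroup.subgroupOf E.fixingSubgroup).normalCore),
    T.Normal ∧ IsSimpleGroup T ∧ Subgroup.centralizer
      (T : Set (E.fixingSubgroup ⧸ (M.fixingSubgroup.subgroupOf E.fixingSubgroup).normalCore)) = ⊥ ∧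
    D ^ A < Nat.card T ∧ ∀ n : ℕ, Nonempty (T ≃* alternatingGroup (Fin n)) → D ^ (A - 1) < n ^ A

/-- `b` is an exceptional number for the bound: the conditions are explained above. -/
structure Exceptional (K : Type) [Field K] {L : Type} [Field L] [Algebra K L] (b : L)
    (A D R : ℕ) : Prop where
  primitive : ∃ E M : IntermediateField K L, E < M ∧ M ≤ IntermediateField.adjoin K {b} ∧
    (∀ M' : IntermediateField K L, E ≤ M' → M' ≤ M → M' = E ∨ M' = M) ∧
    IntermediateField.relfinrank M (IntermediateField.adjoin K {b}) ≤ R ∧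
    Module.finrank K E ^ A < D ∧ AlmostSimple E M A D
  transitive : ∃ T : Finset L, T.card ≤ R ∧ (∀ σ : L ≃ₐ[K] L, σ b ∈ T → σ⁻¹ b ∈ T) ∧
    ∀ (k : ℕ) (σ : Fin k → (L ≃ₐ[K] L)), 2 ≤ k → k ≤ A →
      (∀ i j, i ≠ j → (σ i)⁻¹ (σ j b) ∉ T) →
      D ^ (k * A - 1) <
        Module.finrank K (IntermediateField.adjoin K (Set.range fun i => σ i b)) ^ A
  normal : ∀ H : Subgroup (L ≃ₐ[K] L),
    (∀ σ : L ≃ₐ[K] L, σ b = b → ∀ τ ∈ H, σ * τ * σ⁻¹ ∈ H) → R < (orbit H b).ncard →
    D ^ (A - 1) < (orbit H b).ncard ^ A ∧ ¬ SmallFactors H (orbit H b) (D ^ A)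

theorem fixing_adjoin {K L : Type} [Field K] [Field L] [Algebra K L] (b : L) :
    (IntermediateField.adjoin K {b}).fixingSubgroup = MulAction.stabilizer (L ≃ₐ[K] L) b := by
  ext g
  rw [IntermediateField.mem_fixingSubgroup_iff, MulAction.mem_stabilizer_iff]
  have h1 := IntermediateField.forall_mem_adjoin_smul_eq_self_iff (F := K) (S := {b}) g
  refine Iff.trans h1 ?_
  constructor
  · intro h
    exact h b rfl
  · rintro h _ rfl
    exact h

/-- The local degree at the point `(x₀ : x₁)` of the map given by `F₀`, `F₁`: the multiplicity of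
the linear form `x₁ X₀ - x₀ X₁` in the form `F₁(x) F₀ - F₀(x) F₁`. -/
noncomputable def localDegree {K : Type} [Field K] (F : Fin 2 → MvPolynomial (Fin 2) K)
    (x : Fin 2 → AlgebraicClosure K) : ℕ :=
  multiplicity (MvPolynomial.C (x 1) * MvPolynomial.X 0 - MvPolynomial.C (x 0) *
      MvPolynomial.X 1 : MvPolynomial (Fin 2) (AlgebraicClosure K))
    (MvPolynomial.C (act F x 1) * MvPolynomial.map (algebraMap K (AlgebraicClosure K)) (F 0) -
      MvPolynomial.C (act F x 0) * MvPolynomial.map (algebraMap K (AlgebraicClosure K)) (F 1))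

/-- The forms `∑ f_i X₀ ^ i X₁ ^ (q - i)` and `X₁ ^ q` of the polynomial `f` of degree `q`. -/
noncomputable def polynomialMap {K : Type} [Field K] (q : ℕ) (f : Polynomial K) :
    Fin 2 → MvPolynomial (Fin 2) K :=
  ![∑ i ∈ Finset.range (q + 1), MvPolynomial.C (f.coeff i) * MvPolynomial.X 0 ^ i *
    MvPolynomial.X 1 ^ (q - i), MvPolynomial.X 1 ^ q]

open scoped Classical in
/-- The point `(x₀ : x₁)` of the projective line; `none` is the point at infinity. -/
noncomputable def point {L : Type} [Field L] (x : Fin 2 → L) : Option L :=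
  if x 1 = 0 then none else some (x 0 / x 1)

/-- `F` is parabolic: there is a function `ν` on the projective line over the algebraic closure of
`K` with values in `{1, 2, ..., ∞}`, where `∞` is written as `0`, equal to `1` outside a finite
set, with `ν(F(x)) = e(x) ν(x)`, where `e(x)` is the local degree of `F` at `x`. -/
def Parabolic {K : Type} [Field K] (F : Fin 2 → MvPolynomial (Fin 2) K) : Prop :=
  ∃ ν : Option (AlgebraicClosure K) → ℕ, {z | ν z ≠ 1}.Finite ∧
    ∀ x : Fin 2 → AlgebraicClosure K, x ≠ 0 →
      ν (point (act F x)) = localDegree F x * ν (point x)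

/-- `x` is a wandering critical point of `F`. -/
def WanderingCritical {K : Type} [Field K] (F : Fin 2 → MvPolynomial (Fin 2) K)
    (x : Fin 2 → AlgebraicClosure K) : Prop := x ≠ 0 ∧ 2 ≤ localDegree F x ∧ Wandering F x

theorem result :
    ∀ (K : Type) [Field K] [NumberField K] (p s : ℕ) (v : NumberField.FinitePlace K)
      (F : Fin 2 → MvPolynomial (Fin 2) K),
      p.Prime → 1 ≤ s → v (p : K) < 1 → (∀ i, (F i).IsHomogeneous (p ^ s)) →
      (∀ i t, v (MvPolynomial.coeff t (F i)) ≤ 1) →
      (∀ i t, (∀ j, t ≠ Finsupp.single j (p ^ s)) → v (MvPolynomial.coeff t (F i)) < 1) →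
      v (Matrix.det (Matrix.of fun i j =>
        MvPolynomial.coeff (Finsupp.single j (p ^ s)) (F i))) = 1 →
      ¬ Parabolic F →
      ∃ R : ℕ, 1 ≤ R ∧
        ((∀ x y, WanderingCritical F x → WanderingCritical F y →
          ∃ m n : ℕ, Same ((act F)^[m] x) ((act F)^[n] y)) →
          ((∃ x, WanderingCritical F x) ∨ ∃ c : K, F = polynomialMap (p ^ s)
            (Polynomial.X ^ (p ^ s) + Polynomial.C c)) → R = 1) ∧
        ∀ A : ℕ, 1 ≤ A → ∃ c : ℝ, 0 < c ∧
        ∀ (L : Type) [Field L] [NumberField L] [Algebra K L] [IsGalois K L] (a : L),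
          Wandering F ![a, 1] →
          ∃ h : ℝ,
            Filter.Tendsto (fun n : ℕ =>
              ((1 : ℝ) / (Module.finrank ℚ L : ℝ)) *
                ((∑ w : NumberField.InfinitePlace L, (NumberField.InfinitePlace.mult w : ℝ) *
                    Real.log (⨆ j, w ((act F)^[n] ![a, 1] j))) +
                 ∑ᶠ u : NumberField.FinitePlace L,
                    Real.log (⨆ j, u ((act F)^[n] ![a, 1] j)))
                / ((p ^ s : ℕ) : ℝ) ^ n) Filter.atTop (nhds h) ∧
            c / (degree K a : ℝ) * Real.exp (-(√(Real.log (degree K a)) / c)) ≤ h ∧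
            (c / (degree K a : ℝ) ≤ h ∨
              ∃ (n D : ℕ) (b : L), b = coord ((act F)^[n] ![a, 1]) ∧ D = degree K b ∧ A < D ∧
                ((p ^ s) ^ n) ^ A * D ^ (A - 1) ≤ degree K a ^ A ∧ Exceptional K b A D R) := by
  intro K _ _ p s v F hp hs hv h1 h2 h3 h4 hpar
  have key : ∃ R : ℕ, 1 ≤ R ∧
      ((∀ x y, WanderingCritical F x → WanderingCritical F y →
        ∃ m n : ℕ, Same ((act F)^[m] x) ((act F)^[n] y)) →
        ((∃ x, WanderingCritical F x) ∨ ∃ c : K, F = polynomialMap (p ^ s)
          (Polynomial.X ^ (p ^ s) + Polynomial.C c)) → R = 1) ∧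
      Pool.DynLehmer.UN.ExplR K p s F R := by
    by_cases hw : ∃ x, WanderingCritical F x
    · obtain ⟨x, hx, hx2, hx3⟩ := hw
      obtain ⟨R, hR, hR1, H⟩ := Pool.DynLehmer.LW.vh_explicit Pool.DynLehmer.GS.mor _
        Pool.DynLehmer.LW.vhst K p s v F hp hs hv h1 h2 h3 h4 ⟨x, hx, hx2, hx3⟩
      exact ⟨R, hR, fun h7 _ => hR1 fun x y hx hy hx2 hy2 hwx hwy =>
        h7 x y ⟨hx, hx2, hwx⟩ ⟨hy, hy2, hwy⟩, H⟩
    · obtain ⟨R, hR, hR1, H⟩ := Pool.DynLehmer.UN.orbifold_bound K p s v F
        ⟨hp, hs, hv, h1, h2, h3, h4⟩ hpar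
      exact ⟨R, hR, fun _ h7 => hR1 (h7.resolve_left hw), H⟩
  obtain ⟨R, hR, hR1, H⟩ := key
  refine ⟨R, hR, hR1, ?_⟩
  intro A hA
  obtain ⟨_, c₁, hc₁, H⟩ := H A hA
  obtain ⟨c₂, hc₂, Hn⟩ := Pool.DynLehmer.UN.Rn60.near_explicit K p s v F
    ⟨hp, hs, hv, h1, h2, h3, h4⟩
  refine ⟨min c₁ c₂, lt_min hc₁ hc₂, ?_⟩
  intro L _ _ _ _ a ha
  have hfd : FiniteDimensional K L := Module.Finite.of_restrictScalars_finite ℚ K L
  obtain ⟨h, hlim, hle⟩ := Hn L a ha
  refine ⟨h, hlim, (Pool.DynLehmer.UN.Nr85.near_mono (lt_min hc₁ hc₂) (min_le_right c₁ c₂)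
    (Nat.cast_nonneg _)).trans hle, ?_⟩
  rcases H L a ha with ⟨h', hlim', hle'⟩ | ⟨n, D, b, hb, hD, hAD, hthin, ⟨-, hpas⟩, htr, hn⟩
  · left
    rw [tendsto_nhds_unique hlim hlim']
    exact (div_le_div_of_nonneg_right (min_le_left c₁ c₂) (by positivity)).trans hle'
  right
  refine ⟨n, D, b, hb, hD, hAD, hthin, ?_, htr, hn⟩
  have h5 := Pool.DynLehmer.LW.PasFld.pas_fields hpas (fixing_adjoin b)
  rw [← hD] at h5
  exact h5

end Pool.Agent.Results.MP_2194ec_nt.LehmerSolvable
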